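import Pool.Agent.W662.CB.All2

set_option autoImplicit false

open MeasureTheory
open scoped InnerProductSpace
open Pool.Agent.W662.CB

namespace Pool.Agent.Results.MP_357da3_an.FixedPointEmbedding

/-- **The modular fixed points of the relative bicentralizer embed into the relative commutant
of the continuous cores.** Let `N ⊂ M` be von Neumann algebras on `H`, `ξ` a unit vector cyclic
and separating for `M`, `φ` its vector state, `U_t = Δ^{it}` its modular unitaries, `E` a
conditional expectation of `M` onto `N` with `φ ∘ E = φ`, and let the continuous core `c(N)` be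
a factor (`N` of type III₁). Then there is an injective unital `*`-homomorphism
`π : B(N ⊂ M, φ)^{σ^φ} → c(N)' ∩ c(M)`. -/
theorem result (H : Type) [NormedAddCommGroup H] [InnerProductSpace ℂ H] [CompleteSpace H]
    (M N : VonNeumannAlgebra H) (ξ : H) (U : ℝ → H →L[ℂ] H) (E : (H →L[ℂ] H) → (H →L[ℂ] H))
    (hNM : ∀ x : H →L[ℂ] H, x ∈ N → x ∈ M) (hξ : ‖ξ‖ = 1)
    (hcyc : IsCyclic M ξ) (hsep : IsSeparating M ξ) (hU : IsModular M ξ U)
    (hE : IsCondExp M N E) (hφ : ∀ x : H →L[ℂ] H, x ∈ M → vst ξ (E x) = vst ξ x)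
    (hfac : IrrIn (dcomm (coreGens (fun f : Lp H 2 (volume : Measure ℝ) => (f : ℝ → H)) N U))
      (dcomm (coreGens (fun f : Lp H 2 (volume : Measure ℝ) => (f : ℝ → H)) N U))) :
    ∃ π : (H →L[ℂ] H) →
      (Lp H 2 (volume : Measure ℝ) →L[ℂ] Lp H 2 (volume : Measure ℝ)),
      IsEmb (fixBic N M ξ U)
        (relComm (dcomm (coreGens (fun f : Lp H 2 (volume : Measure ℝ) => (f : ℝ → H)) N U))
          (dcomm (coreGens (fun f : Lp H 2 (volume : Measure ℝ) => (f : ℝ → H)) M U))) π :=
  final H M N ξ U E hNM hξ hcyc hsep hU hE hφ hfac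

end Pool.Agent.Results.MP_357da3_an.FixedPointEmbedding
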