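import Pool.Agent.W29.CB.Res
import Pool.Agent.W662.CB.Fdefs

set_option autoImplicit false

open MeasureTheory
open scoped InnerProductSpace
open Pool.Agent.W662.CB

namespace Pool.Agent.Results.MP_357da3_an.ModularFixedPart

variable {H : Type} [NormedAddCommGroup H] [InnerProductSpace ℂ H] [CompleteSpace H]
variable {K : Type} [NormedAddCommGroup K] [InnerProductSpace ℂ K] [CompleteSpace K]

/-- The part `B(N ⊂ M, φ)^{σ^φ}` of the relative bicentralizer fixed by the modular group. -/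
def fixedBic (N M : VonNeumannAlgebra H) (ξ : H) (U : ℝ → H →L[ℂ] H) : Set (H →L[ℂ] H) :=
  {x | x ∈ relBicentralizer N M ξ ∧ ∀ t : ℝ, sgm U t x = x}

/-- The relative commutant `c(N)' ∩ c(M)` of the continuous cores, on a Hilbert space `K` of
functions `ℝ → H` (`J` sends an element of `K` to its function). -/
def coreRelComm (J : K → ℝ → H) (N M : VonNeumannAlgebra H) (U : ℝ → H →L[ℂ] H) :
    Set (K →L[ℂ] K) :=
  {T | T ∈ dcomm (coreGens J M U) ∧
    ∀ S : K →L[ℂ] K, S ∈ dcomm (coreGens J N U) → S * T = T * S}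

/-- The core `c(N)` is a factor: `c(N)' ∩ c(N)` consists of the scalars. -/
def CoreFactor (J : K → ℝ → H) (N : VonNeumannAlgebra H) (U : ℝ → H →L[ℂ] H) : Prop :=
  ∀ Z : K →L[ℂ] K, Z ∈ coreRelComm J N N U → ∃ c : ℂ, Z = c • (1 : K →L[ℂ] K)

/-- `V` is an isometry of `H` into `K` that commutes with every bounded operator of `H` acting
pointwise (so `V v = f ⊗ v` with `f` a unit vector of `L²(ℝ)`). -/
def IsEmb (J : K → ℝ → H) (V : H →L[ℂ] K) : Prop :=
  (∀ v : H, ‖V v‖ = ‖v‖) ∧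
    ∀ (y : H →L[ℂ] H) (v : H), J (V (y v)) =ᵐ[volume] fun s => y (J (V v) s)

/-- `Y (V ξ)` is within `ε` of `V (x ξ)`. -/
def Near (V : H →L[ℂ] K) (ξ : H) (ε : ℝ) (x : H →L[ℂ] H) (Y : K →L[ℂ] K) : Prop :=
  ‖Y (V ξ) - V (x ξ)‖ ≤ ε

/-- `x_i ↦ Y_i` does not increase norms and is, up to `ε` on the vector `V ξ`, the identity on the
`x_i`, on their adjoints and on their products. -/
def NearHom (V : H →L[ℂ] K) (ξ : H) (ε : ℝ) (k : ℕ) (x : Fin k → H →L[ℂ] H)
    (Y : Fin k → K →L[ℂ] K) : Prop :=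
  ∀ i : Fin k, ‖Y i‖ ≤ ‖x i‖ ∧ Near V ξ ε (x i) (Y i) ∧ Near V ξ ε (star (x i)) (star (Y i)) ∧
    ∀ j : Fin k, Near V ξ ε (x i * x j) (Y i * Y j)

/-- Finitely many elements of `B` are approximated, with their products and adjoints, by elements
of `R`, linearly independent ones by linearly independent ones. -/
def ApproxIn (J : K → ℝ → H) (ξ : H) (B : Set (H →L[ℂ] H)) (R : Set (K →L[ℂ] K)) : Prop :=
  ∀ (k : ℕ) (x : Fin k → H →L[ℂ] H), (∀ i, x i ∈ B) → ∀ ε : ℝ, 0 < ε →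
    ∃ (V : H →L[ℂ] K) (Y : Fin k → K →L[ℂ] K), IsEmb J V ∧ (∀ i, Y i ∈ R) ∧
      NearHom V ξ ε k x Y ∧ (LinearIndependent ℂ x → LinearIndependent ℂ Y)

/-- The elements of `A` commute. -/
def Abel (A : Set (K →L[ℂ] K)) : Prop := ∀ Y Z : K →L[ℂ] K, Y ∈ A → Z ∈ A → Y * Z = Z * Y

/-- **The modular fixed part of the relative bicentralizer and the relative commutant of the
cores.** Let `N ⊂ M` be von Neumann algebras on `H`, `ξ` a unit vector cyclic and separating for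
`M`, `φ` its vector state, `U_t = Δ^{it}` its modular unitaries, `E` a conditional expectation of
`M` onto `N` with `φ ∘ E = φ`, and let the core `c(N)` be a factor. Finitely many elements `x_i` of
`B(N ⊂ M, φ)^{σ^φ}` are approximated, together with their products and adjoints, by elements `Y_i`
of `c(N)' ∩ c(M)` with `‖Y_i‖ ≤ ‖x_i‖`, in the norm of the vector `V ξ = f ⊗ ξ`, `f` a unit vector
of `L²(ℝ)`, and the `Y_i` are linearly independent if the `x_i` are. In particular, if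
`c(N)' ∩ c(M)` is abelian then so is `B(N ⊂ M, φ)^{σ^φ}`. -/
theorem result (H : Type) [NormedAddCommGroup H] [InnerProductSpace ℂ H] [CompleteSpace H]
    (M N : VonNeumannAlgebra H) (ξ : H) (U : ℝ → H →L[ℂ] H) (E : (H →L[ℂ] H) → (H →L[ℂ] H))
    (hNM : ∀ x : H →L[ℂ] H, x ∈ N → x ∈ M) (hξ : ‖ξ‖ = 1)
    (hcyc : IsCyclic M ξ) (hsep : IsSeparating M ξ) (hU : IsModular M ξ U)
    (hE : IsCondExp M N E) (hφ : ∀ x : H →L[ℂ] H, x ∈ M → vst ξ (E x) = vst ξ x)
    (J : Lp H 2 (volume : Measure ℝ) → ℝ → H) (hJ : J = fun f : Lp H 2 (volume : Measure ℝ) => (f : ℝ → H))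
    (hfac : CoreFactor J N U) :
    ApproxIn J ξ (fixedBic N M ξ U) (coreRelComm J N M U) ∧
      (Abel (coreRelComm J N M U) → Abel (fixedBic N M ξ U)) := by
  subst hJ
  have e : ∀ P : VonNeumannAlgebra H, coreGen P U =
      coreGens (fun f : Lp H 2 (volume : Measure ℝ) => (f : ℝ → H)) P U := fun P => rfl
  have m : ∀ (P : VonNeumannAlgebra H) (T : LR H →L[ℂ] LR H), T ∈ core P U ↔
      T ∈ dcomm (coreGens (fun f : Lp H 2 (volume : Measure ℝ) => (f : ℝ → H)) P U) := by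
    intro P T
    rw [← e]
    exact mem_vnGen_iff _ _
  have hfac' : ∀ Z : LR H →L[ℂ] LR H, Z ∈ core N U →
      (∀ S : LR H →L[ℂ] LR H, S ∈ core N U → S * Z = Z * S) →
        ∃ c : ℂ, Z = c • (1 : LR H →L[ℂ] LR H) := by
    intro Z hZ hS
    exact hfac Z ⟨(m N Z).1 hZ, fun S hS' => hS S ((m N S).2 hS')⟩
  have hc : ∀ T : LR H →L[ℂ] LR H, T ∈ Pool.Agent.W29.CB.crc0 N M U ↔
      T ∈ coreRelComm (fun f : Lp H 2 (volume : Measure ℝ) => (f : ℝ → H)) N M U := by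
    intro T
    constructor
    · rintro ⟨h1, h2⟩
      exact ⟨(m M T).1 h1, fun S hS => h2 S ((m N S).2 hS)⟩
    · rintro ⟨h1, h2⟩
      exact ⟨(m M T).2 h1, fun S hS => h2 S ((m N S).1 hS)⟩
  obtain ⟨h1, -, h3⟩ := Pool.Agent.W29.CB.res H M N ξ U E hNM hξ hcyc hsep hU hE hφ hfac'
  refine ⟨?_, ?_⟩
  · intro k x hx ε hε
    by_cases hlin : LinearIndependent ℂ x
    · obtain ⟨ε', hε', h⟩ := Pool.Agent.W29.CB.indep hsep x (fun i => (hx i).1.1) hlin
      obtain ⟨V, Y, hV, hV2, hY, hn, hY1, hY2, hY3⟩ := h1 k x hx (min ε ε') (lt_min hε hε')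
      refine ⟨V, Y, ⟨hV, hV2⟩, fun i => (hc _).1 (hY i), fun i => ⟨hn i,
        (hY1 i).trans (min_le_left _ _), (hY3 i).trans (min_le_left _ _),
        fun j => (hY2 i j).trans (min_le_left _ _)⟩, fun _ => ?_⟩
      exact h V Y hV fun i => (hY1 i).trans (min_le_right _ _)
    · obtain ⟨V, Y, hV, hV2, hY, hn, hY1, hY2, hY3⟩ := h1 k x hx ε hε
      exact ⟨V, Y, ⟨hV, hV2⟩, fun i => (hc _).1 (hY i), fun i => ⟨hn i, hY1 i, hY3 i,
        fun j => hY2 i j⟩, fun h => absurd h hlin⟩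
  · intro hab x y hx hy
    exact h3 (fun Y Z hY hZ => hab Y Z ((hc _).1 hY) ((hc _).1 hZ)) x y hx hy

end Pool.Agent.Results.MP_357da3_an.ModularFixedPart
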